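import Mathlib

/-!
# Almost every real number is not too well approximable
-/

set_option autoImplicit false

namespace Q271.LF

open MeasureTheory Filter Topology Set

/-- the condition on the second coordinate -/
def NotWell (η : ℝ) : Prop :=
  ∀ᶠ Q : ℕ in atTop, ∀ q r : ℤ, q ≠ 0 → |q| ≤ Q → 1 / (Q:ℝ) ^ 2 ≤ |q * η + r|

lemma exists_low (η : ℝ) (hirr : Irrational η) (n₀ : ℕ) :
    ∃ c : ℝ, 0 < c ∧ ∀ n : ℕ, 1 ≤ n → n < n₀ → ∀ m : ℤ, c ≤ |n * η + m| := by
  induction n₀ with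
  | zero => exact ⟨1, one_pos, fun n _ h => absurd h (Nat.not_lt_zero n)⟩
  | succ n₀ ih =>
    obtain ⟨c, hc, h⟩ := ih
    by_cases h0 : n₀ = 0
    · exact ⟨1, one_pos, fun n h1 h2 => by omega⟩
    have hpos : 0 < |(n₀:ℝ) * η - round ((n₀:ℝ) * η)| := by
      rw [abs_pos, sub_ne_zero]
      exact (hirr.natCast_mul h0).ne_int _
    refine ⟨min c |(n₀:ℝ) * η - round ((n₀:ℝ) * η)|, lt_min hc hpos, ?_⟩
    intro n h1 h2 m
    rcases Nat.lt_succ_iff_lt_or_eq.1 h2 with h3 | h3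
    · exact (min_le_left _ _).trans (h n h1 h3 m)
    · subst h3
      refine (min_le_right _ _).trans ?_
      have := round_le ((n:ℝ) * η) (-m)
      push_cast at this
      rwa [sub_neg_eq_add] at this

lemma ae_notWell : ∀ᵐ η : ℝ, NotWell η := by
  have hirr : ∀ᵐ η : ℝ, Irrational η := by
    have := (countable_range ((↑) : ℚ → ℝ)).ae_notMem (volume : Measure ℝ)
    exact this
  filter_upwards [ae_not_liouvilleWith, hirr] with η h1 h2
  have h3 := h1 (5 / 2) (by norm_num)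
  unfold LiouvilleWith at h3
  push Not at h3
  have h4 := h3 1
  obtain ⟨n₀, hn₀⟩ := eventually_atTop.1 h4
  obtain ⟨c, hc, hlow⟩ := exists_low η h2 n₀
  have hlim : ∀ᶠ Q : ℕ in atTop, 1 / (Q:ℝ) ^ 2 < c := by
    have : Tendsto (fun Q : ℕ => 1 / (Q:ℝ) ^ 2) atTop (𝓝 0) := by
      simp_rw [one_div]
      exact ((tendsto_pow_atTop (by norm_num)).comp tendsto_natCast_atTop_atTop).inv_tendsto_atTop
    exact this.eventually_lt_const hc
  filter_upwards [hlim, eventually_ge_atTop 1] with Q hQ hQ1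
  -- positive denominators
  have key : ∀ n : ℕ, 1 ≤ n → n ≤ Q → ∀ m : ℤ, 1 / (Q:ℝ) ^ 2 ≤ |n * η + m| := by
    intro n hn hnQ m
    rcases lt_or_ge n n₀ with h5 | h5
    · exact hQ.le.trans (hlow n hn h5 m)
    · have h6 := hn₀ n h5
      have hn0 : (0:ℝ) < n := by exact_mod_cast hn
      have hn1 : (1:ℝ) ≤ n := by exact_mod_cast hn
      have h7 : η ≠ ((-m : ℤ) : ℝ) / n := by
        intro h
        apply h2
        exact ⟨((-m : ℤ) : ℚ) / n, by rw [h]; push_cast; rfl⟩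
      have h8 := h6 (-m) h7
      have h9 : |(n:ℝ) * η + m| = n * |η - ((-m : ℤ) : ℝ) / n| := by
        rw [← abs_of_pos hn0, ← abs_mul, abs_of_pos hn0]
        congr 1
        push_cast
        field_simp
        ring
      rw [h9]
      have hnQ' : (n:ℝ) ≤ Q := by exact_mod_cast hnQ
      have h10 : (n:ℝ) ^ (5 / 2 : ℝ) ≤ n * (Q:ℝ) ^ 2 := by
        calc (n:ℝ) ^ (5 / 2 : ℝ) ≤ (n:ℝ) ^ (3 : ℝ) :=
              Real.rpow_le_rpow_of_exponent_le hn1 (by norm_num)
          _ = (n:ℝ) ^ 3 := by norm_cast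
          _ = n * (n:ℝ) ^ 2 := by ring
          _ ≤ n * (Q:ℝ) ^ 2 := by gcongr
      calc 1 / (Q:ℝ) ^ 2 = n * (1 / (n * (Q:ℝ) ^ 2)) := by
            have : (0:ℝ) < Q := by exact_mod_cast hQ1
            field_simp
        _ ≤ n * (1 / (n:ℝ) ^ (5 / 2 : ℝ)) := by gcongr
        _ ≤ _ := by gcongr
  intro q r hq hqQ
  have h5 := key q.natAbs (Nat.one_le_iff_ne_zero.2 (Int.natAbs_ne_zero.2 hq))
    (by rw [Int.abs_eq_natAbs] at hqQ; exact_mod_cast hqQ)
  rcases le_total 0 q with h6 | h6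
  · have h7 := h5 r
    rw [Nat.cast_natAbs, abs_of_nonneg h6] at h7
    exact h7
  · have h7 := h5 (-r)
    rw [Nat.cast_natAbs, abs_of_nonpos h6] at h7
    push_cast at h7
    rw [show -(q:ℝ) * η + -(r:ℝ) = -(q * η + r) by ring, abs_neg] at h7
    exact h7

end Q271.LF
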