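import Pool.Agent.Q271.LF.Slice
import Pool.Agent.Q271.Slicing

/-!
# The lower bound in the plane; positive coefficients
-/

set_option autoImplicit false

namespace Q271.LF

open MeasureTheory Filter Topology Set
open scoped ENNReal NNReal

/-- pairs with infinitely many very good approximations, no sign condition -/
def W2 (w : ℝ) : Set (ℝ × ℝ) :=
  {z | ∀ k : ℕ, ∃ p q r : ℤ, (k:ℝ) ≤ max |(p:ℝ)| |(q:ℝ)| ∧ (p ≠ 0 ∨ q ≠ 0) ∧
    |p * z.1 + q * z.2 + r| < (max |(p:ℝ)| |(q:ℝ)|) ^ (-w)}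

lemma slice_W2 (w η : ℝ) : W2 w ∩ Prod.snd ⁻¹' {η} = (fun ξ : ℝ => (ξ, η)) '' (⋂ k, Wk w η k) := by
  ext z
  constructor
  · rintro ⟨h1, h2⟩
    have h3 : z.2 = η := h2
    refine ⟨z.1, mem_iInter.2 fun k => ?_, by rw [← h3]⟩
    obtain ⟨p, q, r, h4, h5, h6⟩ := h1 k
    rw [h3] at h6
    exact ⟨p, q, r, h4, h5, h6⟩
  · rintro ⟨ξ, h1, rfl⟩
    exact ⟨fun k => mem_iInter.1 h1 k, rfl⟩

theorem le_dimH_W2 (w : ℝ) (hw : 2 < w) : ENNReal.ofReal (1 + 3 / (w + 1)) ≤ dimH (W2 w) := by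
  apply le_dimH_of_slices Prod.snd LipschitzWith.prod_snd _ _ (by
    have : 0 < w + 1 := by linarith
    positivity)
  filter_upwards [ae_notWell] with η hη
  rw [slice_W2]
  have hiso : Isometry fun ξ : ℝ => (ξ, η) := by
    apply Isometry.of_dist_eq
    intro a b
    rw [Prod.dist_eq, dist_self]
    exact max_eq_left dist_nonneg
  rw [hiso.dimH_image]
  exact le_dimH_slice w η hw hη

/-- the set of the problem, in `ℝ × ℝ` -/
def EP (w : ℝ) : Set (ℝ × ℝ) :=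
  {z | ∃ c : ℝ, 0 < c ∧ {t : ℤ × ℤ × ℤ | 0 < t.1 ∧ 0 < t.2.1 ∧
    |t.1 * z.1 + t.2.1 * z.2 + t.2.2| < c * (max (t.1:ℝ) (t.2.1:ℝ)) ^ (-w)}.Infinite}

/-- the part with coefficients `p ≥ 0` and `e q ≥ 0` -/
def Quad (e : ℤ) (w : ℝ) : Set (ℝ × ℝ) :=
  {z | ∀ k : ℕ, ∃ p q r : ℤ, 0 ≤ p ∧ 0 ≤ q ∧ (k:ℝ) ≤ max (p:ℝ) (q:ℝ) ∧ (p ≠ 0 ∨ q ≠ 0) ∧
    |p * z.1 + e * q * z.2 + r| < (max (p:ℝ) (q:ℝ)) ^ (-w)}

lemma W2_subset (w : ℝ) : W2 w ⊆ Quad 1 w ∪ Quad (-1) w := by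
  intro z hz
  by_contra hcon
  rw [mem_union, not_or] at hcon
  obtain ⟨h1, h2⟩ := hcon
  rw [Quad, mem_ofPred_eq] at h1 h2
  push Not at h1 h2
  obtain ⟨k1, hk1⟩ := h1
  obtain ⟨k2, hk2⟩ := h2
  obtain ⟨p, q, r, h3, h4, h5⟩ := hz (max k1 k2)
  have h3a : (k1:ℝ) ≤ max |(p:ℝ)| |(q:ℝ)| := le_trans (by exact_mod_cast le_max_left _ _) h3
  have h3b : (k2:ℝ) ≤ max |(p:ℝ)| |(q:ℝ)| := le_trans (by exact_mod_cast le_max_right _ _) h3
  have habs : ∀ a : ℤ, ((|a| : ℤ) : ℝ) = |(a:ℝ)| := fun a => Int.cast_abs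
  rcases le_total 0 p with hp | hp <;> rcases le_total 0 q with hq | hq
  · have hp' : |(p:ℝ)| = p := abs_of_nonneg (by exact_mod_cast hp)
    have hq' : |(q:ℝ)| = q := abs_of_nonneg (by exact_mod_cast hq)
    rw [hp', hq'] at h3a h5
    have := hk1 p q r hp hq h3a h4
    push_cast at this
    rw [one_mul] at this
    linarith
  · have hp' : |(p:ℝ)| = p := abs_of_nonneg (by exact_mod_cast hp)
    have hq' : |(q:ℝ)| = ((-q : ℤ) : ℝ) := by
      rw [abs_of_nonpos (by exact_mod_cast hq)]; push_cast; rfl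
    rw [hp', hq'] at h3b h5
    have := hk2 p (-q) r hp (by omega) h3b (h4.imp id (by omega))
    push_cast at this h5
    rw [show -1 * -(q:ℝ) * z.2 = q * z.2 by ring] at this
    linarith
  · have hp' : |(p:ℝ)| = ((-p : ℤ) : ℝ) := by
      rw [abs_of_nonpos (by exact_mod_cast hp)]; push_cast; rfl
    have hq' : |(q:ℝ)| = q := abs_of_nonneg (by exact_mod_cast hq)
    rw [hp', hq'] at h3b h5
    have := hk2 (-p) q (-r) (by omega) hq h3b (h4.imp (by omega) id)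
    push_cast at this h5
    rw [show -(p:ℝ) * z.1 + -1 * (q:ℝ) * z.2 + -(r:ℝ) = -(p * z.1 + q * z.2 + r) by ring,
      abs_neg] at this
    linarith
  · have hp' : |(p:ℝ)| = ((-p : ℤ) : ℝ) := by
      rw [abs_of_nonpos (by exact_mod_cast hp)]; push_cast; rfl
    have hq' : |(q:ℝ)| = ((-q : ℤ) : ℝ) := by
      rw [abs_of_nonpos (by exact_mod_cast hq)]; push_cast; rfl
    rw [hp', hq'] at h3a h5
    have := hk1 (-p) (-q) (-r) (by omega) (by omega) h3a (h4.imp (by omega) (by omega))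
    push_cast at this h5
    rw [show -(p:ℝ) * z.1 + 1 * -(q:ℝ) * z.2 + -(r:ℝ) = -(p * z.1 + q * z.2 + r) by ring,
      abs_neg] at this
    linarith

/-- **The trick.** A linear change of variables turns the coefficients into positive ones. -/
lemma Quad_subset (w : ℝ) (hw : 0 < w) (e : ℤ) (he : e = 1 ∨ e = -1) :
    Quad e w ⊆ (fun z : ℝ × ℝ => (z.1 + z.2, (e:ℝ) * (z.1 + 2 * z.2))) '' EP w := by
  intro z hz
  have hee : (e:ℝ) * e = 1 := by rcases he with rfl | rfl <;> norm_num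
  refine ⟨(2 * z.1 - e * z.2, e * z.2 - z.1), ?_, ?_⟩
  swap
  · ext
    · show 2 * z.1 - e * z.2 + (e * z.2 - z.1) = z.1
      ring
    · show (e:ℝ) * (2 * z.1 - e * z.2 + 2 * (e * z.2 - z.1)) = z.2
      calc (e:ℝ) * (2 * z.1 - e * z.2 + 2 * (e * z.2 - z.1)) = (e * e) * z.2 := by ring
        _ = z.2 := by rw [hee, one_mul]
  · refine ⟨3 ^ w, by positivity, ?_⟩
    intro hfin
    obtain ⟨B, hB⟩ := (hfin.image (fun t : ℤ × ℤ × ℤ => t.1)).bddAbove
    obtain ⟨p, q, r, hp, hq, hk, hne, hlt⟩ := hz (B.toNat + 1)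
    have hp' : (0:ℝ) ≤ p := by exact_mod_cast hp
    have hq' : (0:ℝ) ≤ q := by exact_mod_cast hq
    have hmax : 0 < max (p:ℝ) (q:ℝ) := lt_of_lt_of_le (by positivity) hk
    have hsum : max (p:ℝ) (q:ℝ) ≤ p + q := max_le (by linarith) (by linarith)
    have hmem : (p + q, p + 2 * q, r) ∈ {t : ℤ × ℤ × ℤ | 0 < t.1 ∧ 0 < t.2.1 ∧
        |t.1 * (2 * z.1 - e * z.2) + t.2.1 * (e * z.2 - z.1) + t.2.2| <
          3 ^ w * (max (t.1:ℝ) (t.2.1:ℝ)) ^ (-w)} := by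
      refine ⟨by show 0 < p + q; omega, by show 0 < p + 2 * q; omega, ?_⟩
      show |((p + q : ℤ) : ℝ) * (2 * z.1 - e * z.2) + ((p + 2 * q : ℤ) : ℝ) * (e * z.2 - z.1) + r| <
        3 ^ w * (max ((p + q : ℤ) : ℝ) ((p + 2 * q : ℤ) : ℝ)) ^ (-w)
      push_cast
      have e1 : ((p:ℝ) + q) * (2 * z.1 - e * z.2) + (p + 2 * q) * (e * z.2 - z.1) + r =
          p * z.1 + e * q * z.2 + r := by ring
      rw [e1]
      refine lt_of_lt_of_le hlt ?_
      have h1 : max ((p:ℝ) + q) (p + 2 * q) ≤ 3 * max (p:ℝ) (q:ℝ) := by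
        have h2 := le_max_left (p:ℝ) (q:ℝ)
        have h3 := le_max_right (p:ℝ) (q:ℝ)
        exact max_le (by linarith) (by linarith)
      have h0 : 0 < max ((p:ℝ) + q) (p + 2 * q) :=
        lt_of_lt_of_le hmax (hsum.trans (le_max_left _ _))
      calc (max (p:ℝ) (q:ℝ)) ^ (-w) = 3 ^ w * (3 * max (p:ℝ) (q:ℝ)) ^ (-w) := by
            rw [Real.mul_rpow (by norm_num) hmax.le, ← mul_assoc, ← Real.rpow_add (by norm_num)]
            simp
        _ ≤ 3 ^ w * (max ((p:ℝ) + q) (p + 2 * q)) ^ (-w) := by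
            apply mul_le_mul_of_nonneg_left _ (by positivity)
            exact Real.rpow_le_rpow_of_nonpos h0 h1 (by linarith)
    have h1 : p + q ≤ B := hB ⟨_, hmem, rfl⟩
    have h2 : ((B.toNat + 1 : ℕ) : ℝ) ≤ ((p + q : ℤ) : ℝ) := by
      push_cast at hk ⊢
      linarith
    have h3 : ((B.toNat + 1 : ℕ) : ℤ) ≤ p + q := by exact_mod_cast h2
    omega

theorem le_dimH_EP (w : ℝ) (hw : 2 < w) : ENNReal.ofReal (1 + 3 / (w + 1)) ≤ dimH (EP w) := by
  refine (le_dimH_W2 w hw).trans ((dimH_mono (W2_subset w)).trans ?_)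
  rw [dimH_union]
  have key : ∀ e : ℤ, (e = 1 ∨ e = -1) → dimH (Quad e w) ≤ dimH (EP w) := by
    intro e he
    refine (dimH_mono (Quad_subset w (by linarith) e he)).trans ?_
    have hL : LipschitzWith 3 (fun z : ℝ × ℝ => (z.1 + z.2, (e:ℝ) * (z.1 + 2 * z.2))) := by
      apply LipschitzWith.of_dist_le_mul
      intro a b
      have h1 : |a.1 - b.1| ≤ dist a b := by rw [Prod.dist_eq]; exact le_max_left _ _
      have h2 : |a.2 - b.2| ≤ dist a b := by rw [Prod.dist_eq]; exact le_max_right _ _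
      have he1 : |(e:ℝ)| = 1 := by rcases he with rfl | rfl <;> simp
      rw [Prod.dist_eq]
      simp only [Real.dist_eq]
      have h0 : 0 ≤ dist a b := dist_nonneg
      apply max_le
      · have e1 : a.1 + a.2 - (b.1 + b.2) = (a.1 - b.1) + (a.2 - b.2) := by ring
        rw [e1]
        refine (abs_add_le _ _).trans ?_
        push_cast
        linarith
      · have e1 : (e:ℝ) * (a.1 + 2 * a.2) - e * (b.1 + 2 * b.2) =
            e * ((a.1 - b.1) + 2 * (a.2 - b.2)) := by ring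
        rw [e1, abs_mul, he1, one_mul]
        refine (abs_add_le _ _).trans ?_
        rw [abs_mul, abs_of_pos (by norm_num : (0:ℝ) < 2)]
        push_cast
        linarith
    exact hL.dimH_image_le _
  exact max_le (key 1 (Or.inl rfl)) (key (-1) (Or.inr rfl))

end Q271.LF
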