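import Mathlib

/-!
# Linear forms in two variables: pigeonhole principle, measure of the bad set
-/

set_option autoImplicit false

namespace Q271.LF

open MeasureTheory Filter Topology Set
open scoped ENNReal NNReal

/-- **Dirichlet's theorem** for one linear form in two variables. -/
lemma dirichlet (ξ η : ℝ) (Q : ℕ) (hQ : 0 < Q) :
    ∃ p q r : ℤ, |p| ≤ Q ∧ |q| ≤ Q ∧ (p ≠ 0 ∨ q ≠ 0) ∧ |p * ξ + q * η + r| < 1 / (Q:ℝ) ^ 2 := by
  classical
  have hQ0 : (0:ℝ) < (Q:ℝ) ^ 2 := by positivity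
  set f : ℕ × ℕ → ℕ := fun a => ⌊Int.fract (a.1 * ξ + a.2 * η) * (Q:ℝ) ^ 2⌋₊ with hf
  set s : Finset (ℕ × ℕ) := Finset.range (Q + 1) ×ˢ Finset.range (Q + 1) with hs
  have hcard : (Finset.range (Q ^ 2)).card < s.card := by
    rw [hs, Finset.card_product, Finset.card_range, Finset.card_range]
    nlinarith
  have hmaps : ∀ a ∈ s, f a ∈ Finset.range (Q ^ 2) := by
    intro a _
    rw [Finset.mem_range, hf]
    have h1 := Int.fract_lt_one (a.1 * ξ + a.2 * η)
    have h2 := Int.fract_nonneg (a.1 * ξ + a.2 * η)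
    rw [Nat.floor_lt (by positivity)]
    push_cast
    nlinarith
  obtain ⟨a, ha, b, hb, hab, hfab⟩ := Finset.exists_ne_map_eq_of_card_lt_of_maps_to hcard hmaps
  rw [hs, Finset.mem_product, Finset.mem_range, Finset.mem_range] at ha hb
  refine ⟨(a.1 : ℤ) - b.1, (a.2 : ℤ) - b.2,
    -(⌊a.1 * ξ + a.2 * η⌋ - ⌊b.1 * ξ + b.2 * η⌋), ?_, ?_, ?_, ?_⟩
  · rw [abs_le]; constructor <;> omega
  · rw [abs_le]; constructor <;> omega
  · by_contra hcon
    push Not at hcon
    apply hab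
    ext <;> omega
  · set u := Int.fract (a.1 * ξ + a.2 * η) with hu
    set v := Int.fract (b.1 * ξ + b.2 * η) with hv
    have h1 : ((((a.1 : ℤ) - b.1 : ℤ) : ℝ) * ξ + (((a.2 : ℤ) - b.2 : ℤ) : ℝ) * η +
        ((-(⌊a.1 * ξ + a.2 * η⌋ - ⌊b.1 * ξ + b.2 * η⌋) : ℤ) : ℝ)) = u - v := by
      rw [hu, hv, Int.fract, Int.fract]
      push_cast
      ring
    rw [h1]
    have hfl : ⌊u * (Q:ℝ) ^ 2⌋₊ = ⌊v * (Q:ℝ) ^ 2⌋₊ := hfab
    have hu0 : 0 ≤ u * (Q:ℝ) ^ 2 := mul_nonneg (Int.fract_nonneg _) hQ0.le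
    have hv0 : 0 ≤ v * (Q:ℝ) ^ 2 := mul_nonneg (Int.fract_nonneg _) hQ0.le
    have h2 := Nat.floor_le hu0
    have h3 := Nat.floor_le hv0
    have h4 := Nat.lt_floor_add_one (u * (Q:ℝ) ^ 2)
    have h5 := Nat.lt_floor_add_one (v * (Q:ℝ) ^ 2)
    rw [hfl] at h2 h4
    rw [lt_div_iff₀ hQ0]
    have h6 : |u - v| * (Q:ℝ) ^ 2 = |u * (Q:ℝ) ^ 2 - v * (Q:ℝ) ^ 2| := by
      rw [← sub_mul, abs_mul, abs_of_pos hQ0]
    rw [h6, abs_lt]
    constructor <;> linarith

/-- **Separated points in a set of large measure.** -/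
lemma exists_separated (L : ℝ) (hL : 0 ≤ L) (N : ℕ) : ∀ (G : Set ℝ), BddBelow G →
    ENNReal.ofReal (N * L) < volume G →
    ∃ f : ℕ → ℝ, (∀ i ≤ N, f i ∈ G) ∧ ∀ i < N, f i + L ≤ f (i + 1) := by
  induction N with
  | zero =>
    intro G _ h
    have hne : G.Nonempty := by
      by_contra he
      rw [not_nonempty_iff_eq_empty] at he
      rw [he] at h
      simp at h
    obtain ⟨z, hz⟩ := hne
    exact ⟨fun _ => z, fun _ _ => hz, fun i hi => absurd hi (Nat.not_lt_zero i)⟩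
  | succ N ih =>
    intro G hb h
    have hne : G.Nonempty := by
      by_contra he
      rw [not_nonempty_iff_eq_empty] at he
      rw [he] at h
      simp at h
    obtain ⟨v, hv1, hv2⟩ : ∃ v : ℝ, ((N + 1 : ℕ) : ℝ) * L < v ∧ ENNReal.ofReal v < volume G := by
      rcases eq_or_ne (volume G) ∞ with htop | hfin
      · exact ⟨((N + 1 : ℕ) : ℝ) * L + 1, by linarith, by rw [htop]; exact ENNReal.ofReal_lt_top⟩
      · have h1 : ((N + 1 : ℕ) : ℝ) * L < (volume G).toReal := by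
          have := (ENNReal.ofReal_lt_iff_lt_toReal (by positivity) hfin).1 h
          exact this
        obtain ⟨v, hv1, hv2⟩ := exists_between h1
        refine ⟨v, hv1, ?_⟩
        rw [ENNReal.ofReal_lt_iff_lt_toReal _ hfin]
        · exact hv2
        · have : 0 ≤ ((N + 1 : ℕ) : ℝ) * L := by positivity
          linarith
    obtain ⟨z, hz, hzlt⟩ := exists_lt_of_csInf_lt hne
      (show sInf G < sInf G + (v - ((N + 1 : ℕ) : ℝ) * L) by linarith)
    set G' := G ∩ Ici (z + L) with hG'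
    have hsub : G ⊆ Icc (sInf G) (z + L) ∪ G' := by
      intro w hw
      rcases le_total w (z + L) with h1 | h1
      · exact Or.inl ⟨csInf_le hb hw, h1⟩
      · exact Or.inr ⟨hw, h1⟩
    have hvol : volume G ≤ ENNReal.ofReal (z + L - sInf G) + volume G' := by
      refine (measure_mono hsub).trans ((measure_union_le _ _).trans ?_)
      rw [Real.volume_Icc]
    have h1 : ENNReal.ofReal (N * L) < volume G' := by
      by_contra hcon
      push Not at hcon
      have hz' : sInf G ≤ z := csInf_le hb hz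
      have h2 : volume G ≤ ENNReal.ofReal v := by
        refine hvol.trans ((add_le_add_right hcon _).trans ?_)
        rw [← ENNReal.ofReal_add (by linarith) (by positivity)]
        apply ENNReal.ofReal_le_ofReal
        push_cast at hzlt
        linarith
      exact absurd hv2 (not_lt.2 h2)
    obtain ⟨f, hf1, hf2⟩ := ih G' (hb.mono inter_subset_left) h1
    refine ⟨fun i => Nat.casesOn i z f, ?_, ?_⟩
    · intro i hi
      cases i with
      | zero => exact hz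
      | succ i => exact (hf1 i (by omega)).1
    · intro i hi
      cases i with
      | zero => exact (hf1 0 (by omega)).2
      | succ i => exact hf2 i (by omega)

lemma sep_dist {L : ℝ} {N : ℕ} {f : ℕ → ℝ} (h : ∀ i < N, f i + L ≤ f (i + 1)) :
    ∀ (j i : ℕ), i + j ≤ N → f i + j * L ≤ f (i + j) := by
  intro j
  induction j with
  | zero => intro i _; simp
  | succ j ih =>
    intro i hi
    have h1 := ih i (by omega)
    have h2 := h (i + j) (by omega)
    push_cast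
    rw [← add_assoc]
    linarith

/-- measure of the points of a short interval for which `p ξ + t` is close to an integer -/
lemma bad_one (x r t δ : ℝ) (p : ℤ) (hp : p ≠ 0) (hr : 0 ≤ r) (hr1 : r ≤ 1) (hδ : 0 ≤ δ)
    (hδ1 : δ ≤ 1 / 2) :
    volume {ξ : ℝ | |ξ - x| ≤ r / 2 ∧ ∃ k : ℤ, |p * ξ + t + k| < δ} ≤ ENNReal.ofReal (6 * δ) := by
  have hp1 : (1:ℝ) ≤ |(p:ℝ)| := by exact_mod_cast Int.one_le_abs hp
  have hp0 : (0:ℝ) < |(p:ℝ)| := by linarith
  have hpne : (p:ℝ) ≠ 0 := by exact_mod_cast hp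
  set u : ℝ := -t - p * x with hu
  set a : ℤ := ⌈u - |(p:ℝ)| * r / 2 - 1 / 2⌉ with ha
  set b : ℤ := ⌊u + |(p:ℝ)| * r / 2 + 1 / 2⌋ with hb
  have hsub : {ξ : ℝ | |ξ - x| ≤ r / 2 ∧ ∃ k : ℤ, |p * ξ + t + k| < δ} ⊆
      ⋃ k ∈ Finset.Icc a b, Metric.ball (-(t + k) / p) (δ / |(p:ℝ)|) := by
    rintro ξ ⟨h1, k, h2⟩
    have h3 : |(k:ℝ) - u| ≤ |(p:ℝ)| * r / 2 + 1 / 2 := by
      have e : (k:ℝ) - u = (p * ξ + t + k) + (-(p * (ξ - x))) := by rw [hu]; ring
      rw [e]
      refine (abs_add_le _ _).trans ?_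
      rw [abs_neg, abs_mul]
      have : |(p:ℝ)| * |ξ - x| ≤ |(p:ℝ)| * (r / 2) := mul_le_mul_of_nonneg_left h1 hp0.le
      linarith
    rw [abs_le] at h3
    rw [mem_iUnion₂]
    refine ⟨k, ?_, ?_⟩
    · rw [Finset.mem_Icc]
      constructor
      · rw [ha]
        apply Int.ceil_le.2
        linarith
      · rw [hb]
        apply Int.le_floor.2
        linarith
    · rw [Metric.mem_ball, Real.dist_eq]
      have e : ξ - -(t + k) / p = (p * ξ + t + k) / p := by field_simp; ring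
      rw [e, abs_div]
      exact div_lt_div_of_pos_right h2 hp0
  refine (measure_mono hsub).trans ((measure_biUnion_finset_le _ _).trans ?_)
  have h1 : ∀ k ∈ Finset.Icc a b, volume (Metric.ball (-(t + (k:ℝ)) / p) (δ / |(p:ℝ)|)) =
      ENNReal.ofReal (2 * (δ / |(p:ℝ)|)) := fun k _ => Real.volume_ball _ _
  rw [Finset.sum_congr rfl h1, Finset.sum_const, nsmul_eq_mul, Int.card_Icc]
  have hcard : (((b + 1 - a).toNat : ℕ) : ℝ) ≤ |(p:ℝ)| * r + 2 := by
    have h2 : (((b + 1 - a).toNat : ℕ) : ℝ) = ((max (b + 1 - a) 0 : ℤ) : ℝ) := by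
      rw [← Int.ofNat_toNat]
      norm_cast
    rw [h2]
    have h3 : (b:ℝ) ≤ u + |(p:ℝ)| * r / 2 + 1 / 2 := Int.floor_le _
    have h4 : u - |(p:ℝ)| * r / 2 - 1 / 2 ≤ (a:ℝ) := Int.le_ceil _
    rcases max_cases (b + 1 - a) 0 with ⟨h5, -⟩ | ⟨h5, -⟩
    · rw [h5]; push_cast; linarith
    · rw [h5]; push_cast; positivity
  have h2 : (((b + 1 - a).toNat : ℕ) : ℝ≥0∞) = ENNReal.ofReal (((b + 1 - a).toNat : ℕ) : ℝ) := by
    rw [ENNReal.ofReal_natCast]
  rw [h2, ← ENNReal.ofReal_mul (by positivity)]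
  apply ENNReal.ofReal_le_ofReal
  calc (((b + 1 - a).toNat : ℕ) : ℝ) * (2 * (δ / |(p:ℝ)|)) ≤ (|(p:ℝ)| * r + 2) * (2 * (δ / |(p:ℝ)|)) := by
        apply mul_le_mul_of_nonneg_right hcard (by positivity)
    _ ≤ (3 * |(p:ℝ)|) * (2 * (δ / |(p:ℝ)|)) := by
        apply mul_le_mul_of_nonneg_right _ (by positivity)
        nlinarith
    _ = 6 * δ := by field_simp; ring

end Q271.LF
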