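import Pool.Agent.Q271.LF.Points
import Pool.Agent.Q271.LF.Cond
import Pool.Agent.Q271.CantorTree

/-!
# The dimension of the slices
-/

set_option autoImplicit false

namespace Q271.LF

open MeasureTheory Filter Topology Set
open scoped ENNReal NNReal

/-- points with a very good approximation of norm at least `k` -/
def Wk (w η : ℝ) (k : ℕ) : Set ℝ :=
  {ξ | ∃ p q r : ℤ, (k:ℝ) ≤ max |(p:ℝ)| |(q:ℝ)| ∧ (p ≠ 0 ∨ q ≠ 0) ∧
    |p * ξ + q * η + r| < (max |(p:ℝ)| |(q:ℝ)|) ^ (-w)}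

/-- the bad set -/
def bad (x r η : ℝ) (Q : ℕ) (M : ℤ) : Set ℝ :=
  ⋃ p ∈ (Finset.Icc (-M) M).erase 0, ⋃ q ∈ Finset.Icc (-(Q:ℤ)) Q,
    {ξ : ℝ | |ξ - x| ≤ r / 2 ∧ ∃ k : ℤ, |p * ξ + q * η + k| < 1 / (Q:ℝ) ^ 2}

lemma volume_bad (x r η : ℝ) (hr : 0 ≤ r) (hr1 : r ≤ 1) (Q : ℕ) (hQ : 2 ≤ Q) (M : ℤ)
    (hM0 : 0 ≤ M) (hM : (M:ℝ) ≤ r / 72 * Q) : volume (bad x r η Q M) ≤ ENNReal.ofReal (r / 2) := by
  have hQ2 : (2:ℝ) ≤ Q := by exact_mod_cast hQ
  have hQ0 : (0:ℝ) < Q := by linarith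
  have h1 : volume (bad x r η Q M) ≤ ∑ p ∈ (Finset.Icc (-M) M).erase 0,
      ∑ q ∈ Finset.Icc (-(Q:ℤ)) Q, ENNReal.ofReal (6 * (1 / (Q:ℝ) ^ 2)) := by
    refine (measure_biUnion_finset_le _ _).trans (Finset.sum_le_sum fun p hp => ?_)
    refine (measure_biUnion_finset_le _ _).trans (Finset.sum_le_sum fun q hq => ?_)
    apply bad_one x r (q * η) (1 / (Q:ℝ) ^ 2) p (Finset.ne_of_mem_erase hp) hr hr1 (by positivity)
    rw [div_le_div_iff₀ (by positivity) (by norm_num)]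
    nlinarith
  refine h1.trans ?_
  have hc1 : ((Finset.Icc (-M) M).erase 0).card = (2 * M).toNat := by
    rw [Finset.card_erase_of_mem (by rw [Finset.mem_Icc]; omega), Int.card_Icc]
    omega
  have hc2 : (Finset.Icc (-(Q:ℤ)) Q).card = 2 * Q + 1 := by
    rw [Int.card_Icc]; omega
  rw [Finset.sum_const, Finset.sum_const, hc1, hc2, nsmul_eq_mul, nsmul_eq_mul]
  have e1 : (((2 * M).toNat : ℕ) : ℝ≥0∞) = ENNReal.ofReal (2 * M) := by
    rw [← ENNReal.ofReal_natCast]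
    congr 1
    have : (((2 * M).toNat : ℕ) : ℤ) = 2 * M := Int.toNat_of_nonneg (by omega)
    exact_mod_cast this
  have e2 : ((2 * Q + 1 : ℕ) : ℝ≥0∞) = ENNReal.ofReal (2 * Q + 1) := by
    rw [← ENNReal.ofReal_natCast]
    congr 1
    push_cast
    rfl
  rw [e1, e2, ← ENNReal.ofReal_mul (by positivity), ← ENNReal.ofReal_mul (by positivity)]
  apply ENNReal.ofReal_le_ofReal
  have hM' : (0:ℝ) ≤ M := by exact_mod_cast hM0
  calc 2 * (M:ℝ) * ((2 * Q + 1) * (6 * (1 / (Q:ℝ) ^ 2)))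
      ≤ 2 * (r / 72 * Q) * ((3 * Q) * (6 * (1 / (Q:ℝ) ^ 2))) := by
        gcongr
        linarith
    _ = r / 2 := by field_simp; ring

/-- a good point is close to a resonant point -/
lemma exists_resonant (x r η ξ : ℝ) (Q : ℕ) (hQ : 1 ≤ Q) (M : ℤ) (hM0 : 0 ≤ M)
    (hη : ∀ q r : ℤ, q ≠ 0 → |q| ≤ Q → 1 / (Q:ℝ) ^ 2 ≤ |q * η + r|)
    (h1 : |ξ - x| ≤ r / 2) (h2 : ξ ∉ bad x r η Q M) :
    ∃ (p q k : ℤ), |p| ≤ Q ∧ |q| ≤ Q ∧ M + 1 ≤ |p| ∧
      |ξ - (-(q * η + k) / p)| ≤ 1 / ((M + 1) * (Q:ℝ) ^ 2) := by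
  obtain ⟨p, q, k, hp, hq, hne, hlt⟩ := dirichlet ξ η Q hQ
  have hQ0 : (0:ℝ) < (Q:ℝ) ^ 2 := by
    have : (0:ℝ) < Q := by exact_mod_cast hQ
    positivity
  have hp0 : p ≠ 0 := by
    intro h0
    have hq0 : q ≠ 0 := hne.resolve_left (not_not.2 h0)
    have := hη q k hq0 hq
    rw [h0] at hlt
    simp only [Int.cast_zero, zero_mul, zero_add] at hlt
    linarith
  have hpM : M + 1 ≤ |p| := by
    by_contra hcon
    push Not at hcon
    apply h2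
    rw [bad, mem_iUnion₂]
    refine ⟨p, ?_, ?_⟩
    · rw [Finset.mem_erase, Finset.mem_Icc]
      exact ⟨hp0, abs_le.1 (by omega)⟩
    · rw [mem_iUnion₂]
      exact ⟨q, Finset.mem_Icc.2 (abs_le.1 hq), h1, k, hlt⟩
  refine ⟨p, q, k, hp, hq, hpM, ?_⟩
  have hpne : (p:ℝ) ≠ 0 := by exact_mod_cast hp0
  have hMp : (M:ℝ) + 1 ≤ |(p:ℝ)| := by exact_mod_cast hpM
  have hM0' : (0:ℝ) < (M:ℝ) + 1 := by
    have : (0:ℝ) ≤ M := by exact_mod_cast hM0
    linarith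
  have e : ξ - (-(q * η + k) / p) = (p * ξ + q * η + k) / p := by field_simp; ring
  rw [e, abs_div]
  calc |p * ξ + q * η + k| / |(p:ℝ)| ≤ (1 / (Q:ℝ) ^ 2) / (M + 1) := by
        apply div_le_div₀ (by positivity) hlt.le hM0' hMp
    _ = _ := by field_simp

/-- the choice of `Q` -/
lemma exists_Q (w η s : ℝ) (hη : NotWell η) (hs : 0 < s) (hsw : s * (w + 1) < 3)
    (k : ℕ) (r : ℝ) (hr : 0 < r) : ∃ Q : ℕ, 2 ≤ Q ∧
      (∀ q r : ℤ, q ≠ 0 → |q| ≤ Q → 1 / (Q:ℝ) ^ 2 ≤ |q * η + r|) ∧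
      (k : ℝ) ≤ r / 72 * Q ∧ 1 / (r / 72 * (Q:ℝ) ^ 3) ≤ r / 32 ∧
      16 * (1 / (r / 72 * (Q:ℝ) ^ 3)) * r ^ s ≤ r * ((Q:ℝ) ^ (-(w + 1)) / 2) ^ s := by
  have hε : 0 < r / 72 := by positivity
  have h1 : ∀ᶠ Q : ℕ in atTop, (k : ℝ) ≤ r / 72 * Q := by
    have : Tendsto (fun Q : ℕ => r / 72 * (Q:ℝ)) atTop atTop :=
      tendsto_natCast_atTop_atTop.const_mul_atTop hε
    exact this.eventually_ge_atTop _
  have h2 : ∀ᶠ Q : ℕ in atTop, 1 / (r / 72 * (Q:ℝ) ^ 3) ≤ r / 32 := by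
    have h : Tendsto (fun Q : ℕ => 1 / (r / 72 * (Q:ℝ) ^ 3)) atTop (𝓝 0) := by
      simp_rw [one_div]
      apply Tendsto.inv_tendsto_atTop
      apply Tendsto.const_mul_atTop hε
      exact (tendsto_pow_atTop (by norm_num)).comp tendsto_natCast_atTop_atTop
    exact h.eventually_le_const (by positivity)
  have h3 : ∀ᶠ Q : ℕ in atTop, (Q:ℝ) ^ (-(3 - s * (w + 1))) ≤
      r * (1 / 2) ^ s * (r / 72) / (16 * r ^ s) := by
    have h : Tendsto (fun Q : ℕ => (Q:ℝ) ^ (-(3 - s * (w + 1)))) atTop (𝓝 0) :=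
      (tendsto_rpow_neg_atTop (by linarith)).comp tendsto_natCast_atTop_atTop
    have hpos : 0 < r * (1 / 2) ^ s * (r / 72) / (16 * r ^ s) := by positivity
    exact h.eventually_le_const hpos
  obtain ⟨Q, hQ1, hQ2, hQ3, hQ4, hQ5⟩ :=
    (h1.and (h2.and (h3.and (hη.and (eventually_ge_atTop 2))))).exists
  refine ⟨Q, hQ5, hQ4, hQ1, hQ2, ?_⟩
  have hQ0 : (0:ℝ) < Q := by
    have : (2:ℝ) ≤ Q := by exact_mod_cast hQ5
    linarith
  have hrs : 0 < r ^ s := Real.rpow_pos_of_pos hr s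
  rw [le_div_iff₀ (by positivity)] at hQ3
  have e1 : ((Q:ℝ) ^ (-(w + 1)) / 2) ^ s = (Q:ℝ) ^ (-(s * (w + 1))) * (1 / 2) ^ s := by
    rw [div_eq_mul_one_div, Real.mul_rpow (by positivity) (by norm_num), ← Real.rpow_mul hQ0.le]
    ring_nf
  have e2 : (Q:ℝ) ^ (-(s * (w + 1))) = (Q:ℝ) ^ (3 - s * (w + 1)) * ((Q:ℝ) ^ 3)⁻¹ := by
    rw [← Real.rpow_natCast, ← Real.rpow_neg hQ0.le, ← Real.rpow_add hQ0]
    congr 1
    push_cast
    ring
  have e3 : (Q:ℝ) ^ (-(3 - s * (w + 1))) = ((Q:ℝ) ^ (3 - s * (w + 1)))⁻¹ := Real.rpow_neg hQ0.le _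
  rw [e3] at hQ3
  rw [e1, e2]
  have hP : 0 < (Q:ℝ) ^ (3 - s * (w + 1)) := Real.rpow_pos_of_pos hQ0 _
  rw [inv_mul_le_iff₀ hP] at hQ3
  have e4 : 16 * (1 / (r / 72 * (Q:ℝ) ^ 3)) * r ^ s = (16 * r ^ s) / (r / 72) * ((Q:ℝ) ^ 3)⁻¹ := by
    field_simp
  have e5 : r * ((Q:ℝ) ^ (3 - s * (w + 1)) * ((Q:ℝ) ^ 3)⁻¹ * (1 / 2) ^ s) =
      ((Q:ℝ) ^ (3 - s * (w + 1)) * (r * (1 / 2) ^ s)) * ((Q:ℝ) ^ 3)⁻¹ := by ring
  rw [e4, e5]
  apply mul_le_mul_of_nonneg_right _ (by positivity)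
  rw [div_le_iff₀ hε]
  calc 16 * r ^ s ≤ (Q:ℝ) ^ (3 - s * (w + 1)) * (r * (1 / 2) ^ s * (r / 72)) := hQ3
    _ = _ := by ring

/-- **The refinement data.** -/
lemma data (w η s : ℝ) (hw : 2 < w) (hη : NotWell η) (hs : 0 < s) (hsw : s * (w + 1) < 3) :
    Cantor.Data s (Ioo (0:ℝ) 1) (Wk w η) := by
  intro k x r hr hsub
  have hr1 : r ≤ 1 := by
    have h1 : x + r ∈ Ioo (0:ℝ) 1 := hsub (by
      rw [Metric.mem_closedBall, Real.dist_eq, add_sub_cancel_left, abs_of_pos hr])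
    have h2 : x - r ∈ Ioo (0:ℝ) 1 := hsub (by
      rw [Metric.mem_closedBall, Real.dist_eq, sub_sub_cancel_left, abs_neg, abs_of_pos hr])
    linarith [h1.2, h2.1]
  obtain ⟨Q, hQ2, hηQ, hkQ, hσr, hστ⟩ := exists_Q w η s hη hs hsw k r hr
  have hQ2' : (2:ℝ) ≤ Q := by exact_mod_cast hQ2
  have hQ0 : (0:ℝ) < Q := by linarith
  set σ : ℝ := 1 / (r / 72 * (Q:ℝ) ^ 3) with hσ
  have hσ0 : 0 < σ := by rw [hσ]; positivity
  set τ : ℝ := (Q:ℝ) ^ (-(w + 1)) / 2 with hτ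
  have hτ0 : 0 < τ := by rw [hτ]; positivity
  set M : ℤ := ⌊r / 72 * Q⌋ with hM
  have hM0 : 0 ≤ M := Int.floor_nonneg.2 (by positivity)
  have hM1 : (M:ℝ) ≤ r / 72 * Q := Int.floor_le _
  have hM2 : r / 72 * Q < (M:ℝ) + 1 := Int.lt_floor_add_one _
  have hM0' : (0:ℝ) ≤ M := by exact_mod_cast hM0
  have hτσ : τ ≤ σ := by
    have h1 : (Q:ℝ) ^ (-(w + 1)) ≤ (Q:ℝ) ^ (-(3:ℝ)) :=
      Real.rpow_le_rpow_of_exponent_le (by linarith) (by linarith)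
    have h2 : (Q:ℝ) ^ (-(3:ℝ)) = 1 / (Q:ℝ) ^ 3 := by
      rw [Real.rpow_neg hQ0.le, one_div]
      norm_cast
    have h3 : 1 / (Q:ℝ) ^ 3 ≤ σ := by
      rw [hσ]
      apply one_div_le_one_div_of_le (by positivity)
      have : (0:ℝ) < (Q:ℝ) ^ 3 := by positivity
      nlinarith
    have h4 : τ ≤ (Q:ℝ) ^ (-(w + 1)) := by
      rw [hτ]
      have : 0 < (Q:ℝ) ^ (-(w + 1)) := Real.rpow_pos_of_pos hQ0 _
      linarith
    linarith
  -- the good set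
  set G : Set ℝ := Metric.closedBall x (r / 2) \ bad x r η Q M with hG
  have hGvol : ENNReal.ofReal (r / 2) ≤ volume G := by
    have h1 : volume (Metric.closedBall x (r / 2)) - volume (bad x r η Q M) ≤ volume G :=
      le_measure_diff
    refine le_trans ?_ h1
    rw [Real.volume_closedBall]
    have h2 := volume_bad x r η hr.le hr1 Q hQ2 M hM0 hM1
    calc ENNReal.ofReal (r / 2) = ENNReal.ofReal (2 * (r / 2) - r / 2) := by congr 1; ring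
      _ = ENNReal.ofReal (2 * (r / 2)) - ENNReal.ofReal (r / 2) :=
          ENNReal.ofReal_sub _ (by positivity)
      _ ≤ _ := tsub_le_tsub_left h2 _
  set N : ℕ := ⌊r / (16 * σ)⌋₊ with hN
  have hN1 : (N:ℝ) ≤ r / (16 * σ) := Nat.floor_le (by positivity)
  have hN2 : (N:ℝ) * (7 * σ) < r / 2 := by
    rw [le_div_iff₀ (by positivity)] at hN1
    nlinarith
  obtain ⟨f, hf1, hf2⟩ := exists_separated (7 * σ) (by positivity) N G
    ⟨x - r / 2, fun z hz => by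
      have := hz.1
      rw [Metric.mem_closedBall, Real.dist_eq] at this
      linarith [(abs_le.1 this).1]⟩
    (lt_of_lt_of_le ((ENNReal.ofReal_lt_ofReal_iff (by positivity)).2 hN2) hGvol)
  -- the resonant points
  have hres : ∀ i : ℕ, ∃ y : ℝ, i ≤ N → |f i - y| ≤ σ ∧ |f i - x| ≤ r / 2 ∧
      ∃ p q k' : ℤ, |p| ≤ Q ∧ |q| ≤ Q ∧ M + 1 ≤ |p| ∧ y = -(q * η + k') / p := by
    intro i
    by_cases hi : i ≤ N
    · have hGi := hf1 i hi
      have h1 : |f i - x| ≤ r / 2 := by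
        have := hGi.1
        rwa [Metric.mem_closedBall, Real.dist_eq] at this
      obtain ⟨p, q, k', hp, hq, hpM, hd⟩ := exists_resonant x r η (f i) Q (by omega) M hM0 hηQ
        h1 hGi.2
      refine ⟨-(q * η + k') / p, fun _ => ⟨hd.trans ?_, h1, p, q, k', hp, hq, hpM, rfl⟩⟩
      rw [hσ]
      apply one_div_le_one_div_of_le (by positivity)
      calc r / 72 * (Q:ℝ) ^ 3 = (r / 72 * Q) * (Q:ℝ) ^ 2 := by ring
        _ ≤ _ := by gcongr
    · exact ⟨0, fun h => absurd h hi⟩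
  choose y hy using hres
  have hvalid : ∀ i : ℕ, 16 * i * σ ≤ r → i ≤ N := by
    intro i hi
    apply Nat.le_floor
    rw [le_div_iff₀ (by positivity)]
    linarith
  refine ⟨σ, τ, y, hτ0, hτσ, hτσ.trans hσr, hστ, ?_, ?_⟩
  · intro i hi z hz
    obtain ⟨hy1, hy2, p, q, k', hp, hq, hpM, hyeq⟩ := hy i (hvalid i hi)
    rw [Metric.mem_closedBall, Real.dist_eq] at hz
    have hpR : |(p:ℝ)| ≤ Q := by exact_mod_cast hp
    have hqR : |(q:ℝ)| ≤ Q := by exact_mod_cast hq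
    have hpM' : (M:ℝ) + 1 ≤ |(p:ℝ)| := by exact_mod_cast hpM
    have hp0 : (p:ℝ) ≠ 0 := by
      intro h0
      rw [h0, abs_zero] at hpM'
      linarith
    have hppos : 0 < |(p:ℝ)| := abs_pos.2 hp0
    refine ⟨⟨p, q, k', ?_, ?_, ?_⟩, ?_⟩
    · exact (hkQ.trans hM2.le).trans (hpM'.trans (le_max_left _ _))
    · left
      intro h0
      exact hp0 (by rw [h0]; simp)
    · have e : p * z + q * η + k' = p * (z - y i) := by
        rw [hyeq]
        field_simp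
        ring
      rw [e, abs_mul]
      have h1 : |(p:ℝ)| * |z - y i| ≤ Q * τ := mul_le_mul hpR hz (abs_nonneg _) hQ0.le
      have h2 : Q * τ = (Q:ℝ) ^ (-w) / 2 := by
        have : (Q:ℝ) ^ (-w) = Q * (Q:ℝ) ^ (-(w + 1)) := by
          rw [← Real.rpow_one_add' hQ0.le (by linarith)]
          ring_nf
        rw [hτ, this]
        ring
      have h3 : 0 < (Q:ℝ) ^ (-w) := Real.rpow_pos_of_pos hQ0 _
      have h4 : (Q:ℝ) ^ (-w) ≤ (max |(p:ℝ)| |(q:ℝ)|) ^ (-w) :=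
        Real.rpow_le_rpow_of_nonpos (lt_of_lt_of_le hppos (le_max_left _ _)) (max_le hpR hqR)
          (by linarith)
      linarith
    · rw [Metric.mem_closedBall, Real.dist_eq]
      have h5 : |z - x| ≤ |z - y i| + |f i - y i| + |f i - x| := by
        have e : z - x = (z - y i) - (f i - y i) + (f i - x) := by ring
        rw [e]
        exact (abs_add_le _ _).trans (add_le_add (abs_sub _ _) le_rfl)
      have h6 := hτσ.trans hσr
      linarith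
  · have key : ∀ i j : ℕ, i < j → j ≤ N → 4 * |(i:ℝ) - j| * σ ≤ dist (y i) (y j) := by
      intro i j hij hj
      have h1 := sep_dist hf2 (j - i) i (by omega)
      rw [Nat.add_sub_cancel' hij.le, Nat.cast_sub hij.le] at h1
      obtain ⟨hy1, -⟩ := hy i (hij.le.trans hj)
      obtain ⟨hy2, -⟩ := hy j hj
      have h2 : (1:ℝ) ≤ (j:ℝ) - i := by
        have : (i:ℝ) + 1 ≤ j := by exact_mod_cast hij
        linarith
      rw [abs_sub_comm, abs_of_pos (by linarith : (0:ℝ) < (j:ℝ) - i), Real.dist_eq, abs_sub_comm]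
      refine le_trans ?_ (le_abs_self _)
      have h3 := (abs_le.1 hy1).1
      have h4 := (abs_le.1 hy2).2
      nlinarith
    intro i j hi hj
    rcases lt_trichotomy i j with h | h | h
    · exact key i j h (hvalid j hj)
    · subst h; simp
    · rw [dist_comm, abs_sub_comm]
      exact key j i h (hvalid i hi)

/-- **The dimension of the slices.** -/
theorem le_dimH_slice (w η : ℝ) (hw : 2 < w) (hη : NotWell η) :
    ENNReal.ofReal (3 / (w + 1)) ≤ dimH (⋂ k, Wk w η k) := by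
  have hw1 : 0 < w + 1 := by linarith
  have h0 : 3 / (w + 1) < 1 := by rw [div_lt_one hw1]; linarith
  refine le_of_forall_lt fun c hc => ?_
  have hcfin : c ≠ ∞ := (hc.trans ENNReal.ofReal_lt_top).ne
  have hc1 : c.toReal < 3 / (w + 1) := (ENNReal.lt_ofReal_iff_toReal_lt hcfin).1 hc
  obtain ⟨s, hs1, hs2⟩ := exists_between hc1
  have hs0 : 0 < s := lt_of_le_of_lt ENNReal.toReal_nonneg hs1
  have h1 := Cantor.le_dimH hs0 (by linarith) isOpen_Ioo ⟨1 / 2, by norm_num, by norm_num⟩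
    (data w η s hw hη hs0 (by rwa [lt_div_iff₀ hw1] at hs2))
  refine lt_of_lt_of_le ?_ (h1.trans (dimH_mono inter_subset_right))
  rw [ENNReal.lt_ofReal_iff_toReal_lt hcfin]
  exact hs1

end Q271.LF
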