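import Pool.Agent.Q271.LF.Plane
import Pool.Agent.Q271.Cantelli

/-!
# The upper bound
-/

set_option autoImplicit false

namespace Q271.LF

open MeasureTheory Filter Topology Set
open scoped ENNReal NNReal

/-- a bounded piece -/
def Piece (w : ℝ) (R c : ℕ) : Set (ℝ × ℝ) :=
  {z | |z.1| ≤ R ∧ |z.2| ≤ R ∧ ∀ k : ℕ, ∃ p q r : ℤ, 0 < p ∧ 0 < q ∧ (k:ℤ) ≤ max p q ∧
    |p * z.1 + q * z.2 + r| < c * (max (p:ℝ) (q:ℝ)) ^ (-w)}

lemma EP_subset (w : ℝ) (hw : 0 < w) : EP w ⊆ ⋃ R : ℕ, ⋃ c : ℕ, Piece w R c := by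
  rintro z ⟨c, hc, hinf⟩
  obtain ⟨R, hR⟩ := exists_nat_ge (max |z.1| |z.2|)
  obtain ⟨c', hc'⟩ := exists_nat_ge c
  rw [mem_iUnion]
  refine ⟨R, mem_iUnion.2 ⟨c', (le_max_left _ _).trans hR, (le_max_right _ _).trans hR, ?_⟩⟩
  intro k
  by_contra hcon
  push Not at hcon
  apply hinf
  set K : ℤ := 2 * R * k + c' + 1 with hK
  apply Set.Finite.subset ((Set.finite_Icc (0:ℤ) k).prod ((Set.finite_Icc (0:ℤ) k).prod
    (Set.finite_Icc (-K) K)))
  rintro ⟨p, q, r⟩ ⟨hp, hq, hlt⟩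
  have hp' : (0:ℤ) < p := hp
  have hq' : (0:ℤ) < q := hq
  have hpR : (1:ℝ) ≤ p := by exact_mod_cast hp'
  have hqR : (1:ℝ) ≤ q := by exact_mod_cast hq'
  have hm1 : (1:ℝ) ≤ max (p:ℝ) (q:ℝ) := le_max_of_le_left hpR
  have hlt' : |p * z.1 + q * z.2 + r| < c' * (max (p:ℝ) (q:ℝ)) ^ (-w) :=
    lt_of_lt_of_le hlt (mul_le_mul_of_nonneg_right hc' (by positivity))
  have hk : max p q < k := by
    by_contra h
    push Not at h
    exact absurd hlt' (not_lt.2 (hcon p q r hp' hq' h))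
  have hpk : p < k := lt_of_le_of_lt (le_max_left _ _) hk
  have hqk : q < k := lt_of_le_of_lt (le_max_right _ _) hk
  refine ⟨⟨hp'.le, hpk.le⟩, ⟨hq'.le, hqk.le⟩, ?_⟩
  have h1 : (max (p:ℝ) (q:ℝ)) ^ (-w) ≤ 1 :=
    Real.rpow_le_one_of_one_le_of_nonpos hm1 (by linarith)
  have hR1 : |z.1| ≤ R := (le_max_left _ _).trans hR
  have hR2 : |z.2| ≤ R := (le_max_right _ _).trans hR
  have hpk' : (p:ℝ) ≤ k := by exact_mod_cast hpk.le
  have hqk' : (q:ℝ) ≤ k := by exact_mod_cast hqk.le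
  have h2 : |(r:ℝ)| ≤ 2 * R * k + c' := by
    have e : (r:ℝ) = (p * z.1 + q * z.2 + r) - p * z.1 - q * z.2 := by ring
    have h3 : |(r:ℝ)| ≤ |p * z.1 + q * z.2 + r| + |p * z.1| + |q * z.2| := by
      calc |(r:ℝ)| = |(p * z.1 + q * z.2 + r) - p * z.1 - q * z.2| := by rw [← e]
        _ ≤ |(p * z.1 + q * z.2 + r) - p * z.1| + |q * z.2| := abs_sub _ _
        _ ≤ _ := by gcongr; exact abs_sub _ _
    have h4 : |p * z.1| ≤ k * R := by
      rw [abs_mul, abs_of_pos (by linarith : (0:ℝ) < p)]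
      exact mul_le_mul hpk' hR1 (abs_nonneg _) (by positivity)
    have h5 : |q * z.2| ≤ k * R := by
      rw [abs_mul, abs_of_pos (by linarith : (0:ℝ) < q)]
      exact mul_le_mul hqk' hR2 (abs_nonneg _) (by positivity)
    have h6 : |p * z.1 + q * z.2 + r| ≤ c' := by
      refine hlt'.le.trans ?_
      have : (0:ℝ) ≤ c' := Nat.cast_nonneg _
      nlinarith
    linarith
  have h3 : |r| ≤ K := by
    have : ((|r| : ℤ) : ℝ) ≤ ((K : ℤ) : ℝ) := by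
      rw [hK]
      push_cast
      linarith
    exact_mod_cast this
  exact abs_le.1 h3

/-- the mesh of level `n` -/
noncomputable def hh (w : ℝ) (n : ℕ) : ℝ := (n:ℝ) ^ (-(w + 1))

/-- the covering sets -/
noncomputable def Cov (w : ℝ) (R c n : ℕ)
    (a : Bool × Fin (n + 1) × Fin (2 * ((2 * R + c) * n) + 1) × Fin (⌊2 * R / hh w n⌋₊ + 1)) :
    Set (ℝ × ℝ) :=
  if a.1 then
    Metric.closedBall (-((a.2.1 : ℕ) * (-R + (a.2.2.2 : ℕ) * hh w n) +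
      (((a.2.2.1 : ℕ) : ℝ) - ((2 * R + c) * n : ℕ))) / n, -R + (a.2.2.2 : ℕ) * hh w n)
      ((c + 1) * hh w n)
  else
    Metric.closedBall (-R + (a.2.2.2 : ℕ) * hh w n, -((a.2.1 : ℕ) * (-R + (a.2.2.2 : ℕ) * hh w n) +
      (((a.2.2.1 : ℕ) : ℝ) - ((2 * R + c) * n : ℕ))) / n)
      ((c + 1) * hh w n)

/-- the estimate behind the covering -/
lemma cover_aux (w : ℝ) (R c n : ℕ) (hn : 1 ≤ n) (hw : 0 < w) (u v : ℝ) (hu : |u| ≤ R)
    (hv : |v| ≤ R) (q r : ℤ) (hq : 0 ≤ q) (hqn : q ≤ n)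
    (h : |(n:ℝ) * u + q * v + r| < c * (n:ℝ) ^ (-w)) :
    ∃ (a : Fin (n + 1)) (b : Fin (2 * ((2 * R + c) * n) + 1)) (j : Fin (⌊2 * R / hh w n⌋₊ + 1)),
      |v - (-R + (j : ℕ) * hh w n)| ≤ (c + 1) * hh w n ∧
      |u - -((a : ℕ) * (-R + (j : ℕ) * hh w n) + (((b : ℕ) : ℝ) - ((2 * R + c) * n : ℕ))) / n| ≤
        (c + 1) * hh w n := by
  have hn1 : (1:ℝ) ≤ n := by exact_mod_cast hn
  have hn0 : (0:ℝ) < n := by linarith
  have hh0 : 0 < hh w n := Real.rpow_pos_of_pos hn0 _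
  have hc0 : (0:ℝ) ≤ c := Nat.cast_nonneg _
  have hR0 : (0:ℝ) ≤ R := Nat.cast_nonneg _
  have hw1 : (n:ℝ) ^ (-w) ≤ 1 := Real.rpow_le_one_of_one_le_of_nonpos hn1 (by linarith)
  have hwh : (n:ℝ) ^ (-w) = n * hh w n := by
    rw [hh, ← Real.rpow_one_add' hn0.le (by linarith)]
    ring_nf
  have hqR : (0:ℝ) ≤ q := by exact_mod_cast hq
  have hqnR : (q:ℝ) ≤ n := by exact_mod_cast hqn
  -- the bound for r
  have hr : |(r:ℝ)| ≤ (2 * R + c) * n := by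
    have h3 : |(r:ℝ)| ≤ |(n:ℝ) * u + q * v + r| + |(n:ℝ) * u| + |q * v| := by
      have e : (r:ℝ) = ((n:ℝ) * u + q * v + r) - n * u - q * v := by ring
      calc |(r:ℝ)| = |((n:ℝ) * u + q * v + r) - n * u - q * v| := by rw [← e]
        _ ≤ |((n:ℝ) * u + q * v + r) - n * u| + |q * v| := abs_sub _ _
        _ ≤ _ := by gcongr; exact abs_sub _ _
    have h4 : |(n:ℝ) * u| ≤ n * R := by
      rw [abs_mul, abs_of_pos hn0]
      exact mul_le_mul_of_nonneg_left hu hn0.le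
    have h5 : |q * v| ≤ n * R := by
      rw [abs_mul, abs_of_nonneg hqR]
      exact mul_le_mul hqnR hv (abs_nonneg _) hn0.le
    have h6 : |(n:ℝ) * u + q * v + r| ≤ c * n := by
      refine h.le.trans ?_
      exact mul_le_mul_of_nonneg_left (hw1.trans hn1) hc0
    linarith
  have hrZ : |r| ≤ (((2 * R + c) * n : ℕ) : ℤ) := by
    have : ((|r| : ℤ) : ℝ) ≤ (((((2 * R + c) * n : ℕ) : ℤ)) : ℝ) := by
      push_cast
      exact hr
    exact_mod_cast this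
  have hrZ' := abs_le.1 hrZ
  -- the index of the mesh
  have hvR := abs_le.1 hv
  have hj0 : 0 ≤ (v + R) / hh w n := div_nonneg (by linarith) hh0.le
  have hj1 : ⌊(v + R) / hh w n⌋₊ ≤ ⌊2 * R / hh w n⌋₊ := by
    apply Nat.floor_le_floor
    apply div_le_div_of_nonneg_right _ hh0.le
    linarith
  have hj2 := Nat.floor_le hj0
  have hj3 := Nat.lt_floor_add_one ((v + R) / hh w n)
  rw [le_div_iff₀ hh0] at hj2
  rw [div_lt_iff₀ hh0] at hj3
  set j : ℕ := ⌊(v + R) / hh w n⌋₊ with hj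
  have hvj : |v - (-R + (j:ℝ) * hh w n)| ≤ hh w n := by
    rw [abs_le]
    constructor <;> linarith
  refine ⟨⟨q.toNat, by omega⟩, ⟨(r + (((2 * R + c) * n : ℕ) : ℤ)).toNat, ?_⟩, ⟨j, by omega⟩, ?_, ?_⟩
  · generalize (2 * R + c) * n = T at *
    omega
  · refine hvj.trans ?_
    nlinarith
  · show |u - -(((q.toNat : ℕ) : ℝ) * (-R + (j:ℝ) * hh w n) +
      ((((r + (((2 * R + c) * n : ℕ) : ℤ)).toNat : ℕ) : ℝ) - ((2 * R + c) * n : ℕ))) / n| ≤ _
    have e1 : ((q.toNat : ℕ) : ℝ) = q := by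
      have : ((q.toNat : ℕ) : ℤ) = q := Int.toNat_of_nonneg hq
      exact_mod_cast this
    have e2 : (((r + (((2 * R + c) * n : ℕ) : ℤ)).toNat : ℕ) : ℝ) - ((2 * R + c) * n : ℕ) = r := by
      have h1 : (((r + (((2 * R + c) * n : ℕ) : ℤ)).toNat : ℕ) : ℤ) =
          r + (((2 * R + c) * n : ℕ) : ℤ) := by
        apply Int.toNat_of_nonneg
        linarith
      have h2 : (((r + (((2 * R + c) * n : ℕ) : ℤ)).toNat : ℕ) : ℝ) =
          ((r + (((2 * R + c) * n : ℕ) : ℤ) : ℤ) : ℝ) := by exact_mod_cast h1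
      rw [h2]
      push_cast
      ring
    rw [e1, e2]
    have e3 : u - -((q:ℝ) * (-R + (j:ℝ) * hh w n) + r) / n =
        (((n:ℝ) * u + q * v + r) - q * (v - (-R + (j:ℝ) * hh w n))) / n := by
      field_simp
      ring
    rw [e3, abs_div, abs_of_pos hn0, div_le_iff₀ hn0]
    refine (abs_sub _ _).trans ?_
    rw [abs_mul, abs_of_nonneg hqR]
    have h1 : (q:ℝ) * |v - (-R + (j:ℝ) * hh w n)| ≤ n * hh w n :=
      mul_le_mul hqnR hvj (abs_nonneg _) hn0.le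
    rw [hwh] at h
    nlinarith

lemma mem_Cov (w : ℝ) (hw : 0 < w) (R c : ℕ) (z : ℝ × ℝ) (hz : z ∈ Piece w R c) (k : ℕ) :
    ∃ n, k ≤ n ∧ ∃ a, z ∈ Cov w R c (n + 1) a := by
  obtain ⟨h1, h2, h3⟩ := hz
  obtain ⟨p, q, r, hp, hq, hk, hlt⟩ := h3 (k + 1)
  obtain ⟨n, hn⟩ : ∃ n : ℕ, max p q = ((n + 1 : ℕ) : ℤ) := by
    refine ⟨(max p q - 1).toNat, ?_⟩
    have : 1 ≤ max p q := le_trans (by omega) (le_max_left p q)
    push_cast
    rw [Int.toNat_of_nonneg (by omega)]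
    ring
  have hnR : max (p:ℝ) (q:ℝ) = ((n + 1 : ℕ) : ℝ) := by
    have : ((max p q : ℤ) : ℝ) = (((n + 1 : ℕ) : ℤ) : ℝ) := by rw [hn]
    push_cast at this ⊢
    exact this
  refine ⟨n, by push_cast at hk hn; omega, ?_⟩
  rw [hnR] at hlt
  rcases max_cases p q with ⟨h4, h5⟩ | ⟨h4, h5⟩
  · have hpn : (p:ℝ) = ((n + 1 : ℕ) : ℝ) := by
      rw [h4] at hn
      rw [hn]; push_cast; rfl
    rw [hpn] at hlt
    obtain ⟨a, b, j, h6, h7⟩ := cover_aux w R c (n + 1) (by omega) hw z.1 z.2 h1 h2 q r hq.le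
      (by rw [← hn, h4]; exact h5) hlt
    refine ⟨(true, a, b, j), ?_⟩
    rw [Cov, if_pos rfl, Metric.mem_closedBall, Prod.dist_eq]
    exact max_le h7 h6
  · have hqn : (q:ℝ) = ((n + 1 : ℕ) : ℝ) := by
      rw [h4] at hn
      rw [hn]; push_cast; rfl
    rw [hqn, add_comm ((p:ℝ) * z.1)] at hlt
    obtain ⟨a, b, j, h6, h7⟩ := cover_aux w R c (n + 1) (by omega) hw z.2 z.1 h2 h1 p r hp.le
      (by rw [← hn, h4]; exact h5.le) hlt
    refine ⟨(false, a, b, j), ?_⟩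
    rw [Cov, if_neg (by simp), Metric.mem_closedBall, Prod.dist_eq]
    exact max_le h6 h7

lemma term_le (w : ℝ) (hw : 0 < w) (R c n : ℕ) (hn : 1 ≤ n) (d : ℝ≥0) :
    (Fintype.card (Bool × Fin (n + 1) × Fin (2 * ((2 * R + c) * n) + 1) ×
      Fin (⌊2 * R / hh w n⌋₊ + 1)) : ℝ≥0∞) *
      ENNReal.ofReal (2 * ((c + 1) * hh w n)) ^ (d : ℝ) ≤
    ENNReal.ofReal (2 * 2 * (2 * (2 * R + c) + 1) * (2 * R + 1) * (2 * (c + 1)) ^ (d : ℝ) *
      (n:ℝ) ^ (w + 3 - (w + 1) * d)) := by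
  have hn1 : (1:ℝ) ≤ n := by exact_mod_cast hn
  have hn0 : (0:ℝ) < n := by linarith
  have hh0 : 0 < hh w n := Real.rpow_pos_of_pos hn0 _
  have hcard : (Fintype.card (Bool × Fin (n + 1) × Fin (2 * ((2 * R + c) * n) + 1) ×
      Fin (⌊2 * R / hh w n⌋₊ + 1)) : ℝ≥0∞) = ENNReal.ofReal
        (2 * ((n + 1) * ((2 * ((2 * R + c) * n) + 1) * ((⌊2 * R / hh w n⌋₊ : ℕ) + 1)))) := by
    simp only [Fintype.card_prod, Fintype.card_bool, Fintype.card_fin]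
    rw [← ENNReal.ofReal_natCast]
    congr 1
    push_cast
    ring
  rw [hcard, ENNReal.ofReal_rpow_of_nonneg (by positivity) (NNReal.coe_nonneg d),
    ← ENNReal.ofReal_mul (by positivity)]
  apply ENNReal.ofReal_le_ofReal
  have hfl : ((⌊2 * R / hh w n⌋₊ : ℕ) : ℝ) + 1 ≤ (2 * R + 1) * (n:ℝ) ^ (w + 1) := by
    have h1 : ((⌊2 * R / hh w n⌋₊ : ℕ) : ℝ) ≤ 2 * R / hh w n := Nat.floor_le (by positivity)
    have h2 : 2 * R / hh w n = 2 * R * (n:ℝ) ^ (w + 1) := by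
      rw [hh, Real.rpow_neg hn0.le, div_inv_eq_mul]
    have h3 : 1 ≤ (n:ℝ) ^ (w + 1) := Real.one_le_rpow hn1 (by linarith)
    have h4 := h1.trans_eq h2
    nlinarith
  have h1 : (2 * ((c + 1) * hh w n)) ^ (d : ℝ) =
      (2 * (c + 1)) ^ (d : ℝ) * (n:ℝ) ^ (-((w + 1) * d)) := by
    rw [← mul_assoc, Real.mul_rpow (by positivity) hh0.le, hh, ← Real.rpow_mul hn0.le]
    ring_nf
  have h2 : (n:ℝ) * n * (n:ℝ) ^ (w + 1) * (n:ℝ) ^ (-((w + 1) * d)) =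
      (n:ℝ) ^ (w + 3 - (w + 1) * d) := by
    have e : (n:ℝ) * n = (n:ℝ) ^ (2:ℝ) := by
      rw [Real.rpow_two]; ring
    rw [e, ← Real.rpow_add hn0, ← Real.rpow_add hn0]
    congr 1
    ring
  rw [h1]
  calc 2 * (((n:ℝ) + 1) * ((2 * ((2 * R + c) * n) + 1) * ((⌊2 * R / hh w n⌋₊ : ℕ) + 1))) *
        ((2 * (c + 1)) ^ (d : ℝ) * (n:ℝ) ^ (-((w + 1) * d)))
      ≤ 2 * ((2 * n) * (((2 * (2 * R + c) + 1) * n) * ((2 * R + 1) * (n:ℝ) ^ (w + 1)))) *
        ((2 * (c + 1)) ^ (d : ℝ) * (n:ℝ) ^ (-((w + 1) * d))) := by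
        gcongr
        · linarith
        · nlinarith
    _ = 2 * 2 * (2 * (2 * R + c) + 1) * (2 * R + 1) * (2 * (c + 1)) ^ (d : ℝ) *
        ((n:ℝ) * n * (n:ℝ) ^ (w + 1) * (n:ℝ) ^ (-((w + 1) * d))) := by ring
    _ = _ := by rw [h2]

lemma dimH_Piece_le (w : ℝ) (hw : 0 < w) (R c : ℕ) (d : ℝ≥0) (hd : 1 + 3 / (w + 1) < d) :
    dimH (Piece w R c) ≤ d := by
  have hw1 : 0 < w + 1 := by linarith
  have hd' : w + 4 < (w + 1) * d := by
    have h1 : 1 + 3 / (w + 1) = (w + 4) / (w + 1) := by field_simp; ring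
    rw [h1, div_lt_iff₀ hw1] at hd
    linarith
  apply dimH_le_of_cantelli _ d (fun n => Bool × Fin (n + 1 + 1) ×
    Fin (2 * ((2 * R + c) * (n + 1)) + 1) × Fin (⌊2 * R / hh w (n + 1)⌋₊ + 1))
    (fun n => Cov w R c (n + 1)) (fun n => ENNReal.ofReal (2 * ((c + 1) * hh w (n + 1))))
  · intro n a
    apply Metric.ediam_le
    intro x hx y hy
    rw [edist_dist]
    apply ENNReal.ofReal_le_ofReal
    rw [Cov] at hx hy
    split_ifs at hx hy with hb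
    · exact (dist_triangle_right x y _).trans ((add_le_add hx hy).trans_eq (by ring))
    · exact (dist_triangle_right x y _).trans ((add_le_add hx hy).trans_eq (by ring))
  · intro n n' hnn
    apply ENNReal.ofReal_le_ofReal
    have h1 : hh w (n' + 1) ≤ hh w (n + 1) := by
      apply Real.rpow_le_rpow_of_nonpos (by positivity) _ (by linarith)
      exact_mod_cast Nat.succ_le_succ hnn
    have : (0:ℝ) ≤ c := Nat.cast_nonneg _
    gcongr
  · rw [← ENNReal.ofReal_zero]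
    apply ENNReal.tendsto_ofReal
    have h1 : Tendsto (fun n : ℕ => hh w (n + 1)) atTop (𝓝 0) := by
      have h2 : Tendsto (fun n : ℕ => (((n + 1 : ℕ) : ℕ) : ℝ)) atTop atTop :=
        tendsto_natCast_atTop_atTop.comp (tendsto_add_atTop_nat 1)
      exact (tendsto_rpow_neg_atTop hw1).comp h2
    have h3 := (h1.const_mul (c + 1 : ℝ)).const_mul 2
    simpa using h3
  · intro z hz k
    exact mem_Cov w hw R c z hz k
  · have hs : Summable fun n : ℕ => 2 * 2 * (2 * (2 * R + c) + 1) * (2 * R + 1) *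
        (2 * (c + 1)) ^ (d : ℝ) * ((n + 1 : ℕ) : ℝ) ^ (w + 3 - (w + 1) * d) := by
      apply Summable.mul_left
      exact (summable_nat_add_iff (f := fun n : ℕ => (n:ℝ) ^ (w + 3 - (w + 1) * d)) 1).2
        (Real.summable_nat_rpow.2 (by linarith))
    apply ne_top_of_le_ne_top _ (ENNReal.tsum_le_tsum fun n =>
      term_le w hw R c (n + 1) (by omega) d)
    rw [← ENNReal.ofReal_tsum_of_nonneg (fun n => by positivity) hs]
    exact ENNReal.ofReal_ne_top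

theorem dimH_EP_le (w : ℝ) (hw : 0 < w) : dimH (EP w) ≤ ENNReal.ofReal (1 + 3 / (w + 1)) := by
  refine (dimH_mono (EP_subset w hw)).trans ?_
  rw [dimH_iUnion]
  apply iSup_le
  intro R
  rw [dimH_iUnion]
  apply iSup_le
  intro c
  refine ENNReal.le_of_forall_pos_le_add ?_
  intro e he _
  have hw1 : 0 < w + 1 := by linarith
  have h0 : 0 ≤ 1 + 3 / (w + 1) := by positivity
  have h1 := dimH_Piece_le w hw R c (Real.toNNReal (1 + 3 / (w + 1)) + e) (by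
    rw [NNReal.coe_add, Real.coe_toNNReal _ h0]
    have : (0:ℝ) < e := he
    linarith)
  rw [ENNReal.coe_add] at h1
  exact h1

end Q271.LF
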